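import Mathlib
import Pool.Agent.V1178.RG.Mom
set_option autoImplicit false

/-!
# Polynomial symbols whose norm is the spectral radius on all balls are ridge polynomials

If a polynomial `τ` on `ℝⁿ` satisfies `‖τ(D)‖ = max_K |τ|` on the Bernstein space `B(K)` for every
closed ball `K` with centre `0`, then `τ(ξ) = ρ(⟨a, ξ⟩)` for a vector `a` and a polynomial `ρ` in one
variable.
-/

namespace Pool.Agent.Results.MP_c23f48_an.RidgeSymbols

open MeasureTheory FourierTransform SchwartzMap Filter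
open scoped InnerProductSpace BoundedContinuousFunction

/-- The Bernstein space `B(K)`: bounded continuous functions on `ℝⁿ` whose Fourier transform, a
tempered distribution, is supported in `K`: it vanishes on all Schwartz functions `φ` the support of
which does not meet `K`. The Fourier transform of `φ` is `∫ φ(ξ) exp(-i⟨x, ξ⟩) dξ`. -/
def InBernstein {n : ℕ} (K : Set (EuclideanSpace ℝ (Fin n))) (f : EuclideanSpace ℝ (Fin n) → ℂ) :
    Prop :=
  Continuous f ∧ (∃ N : ℝ, ∀ x, ‖f x‖ ≤ N) ∧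
    ∀ φ : 𝓢(EuclideanSpace ℝ (Fin n), ℂ), Disjoint (tsupport φ) K →
      ∫ x, f x * ∫ ξ, Complex.exp (-(Complex.I * (⟪x, ξ⟫_ℝ : ℝ))) * φ ξ = 0

/-- `D_k f = (1 / i) ∂f / ∂x_k`. -/
noncomputable def Dk {n : ℕ} (k : Fin n) (f : EuclideanSpace ℝ (Fin n) → ℂ) :
    EuclideanSpace ℝ (Fin n) → ℂ :=
  fun x => -Complex.I * fderiv ℝ f x (EuclideanSpace.single k 1)

/-- `D^α f`. -/
noncomputable def Dmono {n : ℕ} (α : Fin n →₀ ℕ) (f : EuclideanSpace ℝ (Fin n) → ℂ) :
    EuclideanSpace ℝ (Fin n) → ℂ :=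
  (List.finRange n).foldr (fun k g => (Dk k)^[α k] g) f

/-- `τ(D) f = ∑ c_α D^α f`. -/
noncomputable def symD {n : ℕ} (τ : MvPolynomial (Fin n) ℂ) (f : EuclideanSpace ℝ (Fin n) → ℂ) :
    EuclideanSpace ℝ (Fin n) → ℂ :=
  fun x => ∑ α ∈ τ.support, τ.coeff α * Dmono α f x

/-- The value `τ(ξ)`. -/
noncomputable def val {n : ℕ} (τ : MvPolynomial (Fin n) ℂ) (ξ : EuclideanSpace ℝ (Fin n)) : ℂ :=
  MvPolynomial.eval (fun k => (ξ k : ℂ)) τ

/-- The norm of the operator `τ(D)` on `B(K)` is the number `A`. -/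
def OpNormEq {n : ℕ} (τ : MvPolynomial (Fin n) ℂ) (K : Set (EuclideanSpace ℝ (Fin n))) (A : ℝ) :
    Prop :=
  IsLeast {C : ℝ | 0 ≤ C ∧ ∀ f, InBernstein K f → ∀ N : ℝ, (∀ x, ‖f x‖ ≤ N) →
    ∀ x, ‖symD τ f x‖ ≤ C * N} A

/-- `τ = ρ ∘ ψ` with a real linear form `ψ(ξ) = ⟨a, ξ⟩` and a polynomial `ρ` in one variable. -/
def IsRidge {n : ℕ} (τ : MvPolynomial (Fin n) ℂ) : Prop :=
  ∃ (a : EuclideanSpace ℝ (Fin n)) (ρ : Polynomial ℂ), ∀ ξ, val τ ξ = ρ.eval ((⟪a, ξ⟫_ℝ : ℝ) : ℂ)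

open Pool.Agent.V1178.RG

variable {n : ℕ}

/-! ### Trigonometric polynomials -/

/-- a trigonometric polynomial -/
noncomputable def Tr {ι : Type*} (s : Finset ι) (c : ι → ℂ) (η : ι → EuclideanSpace ℝ (Fin n)) :
    EuclideanSpace ℝ (Fin n) → ℂ :=
  fun x => ∑ i ∈ s, c i * Complex.exp (Complex.I * ((⟪η i, x⟫_ℝ : ℝ) : ℂ))

theorem hasFDeriv_exp (η x : EuclideanSpace ℝ (Fin n)) :
    HasFDerivAt (fun x => Complex.exp (Complex.I * ((⟪η, x⟫_ℝ : ℝ) : ℂ)))
      ((Complex.exp (Complex.I * ((⟪η, x⟫_ℝ : ℝ) : ℂ)) * Complex.I) •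
        (Complex.ofRealCLM.comp (innerSL ℝ η))) x := by
  have h1 : HasFDerivAt (fun x : EuclideanSpace ℝ (Fin n) => Complex.I * ((⟪η, x⟫_ℝ : ℝ) : ℂ))
      (Complex.I • (Complex.ofRealCLM.comp (innerSL ℝ η))) x := by
    have h0 : HasFDerivAt (fun x : EuclideanSpace ℝ (Fin n) => ((⟪η, x⟫_ℝ : ℝ) : ℂ))
        (Complex.ofRealCLM.comp (innerSL ℝ η)) x :=
      (Complex.ofRealCLM.comp (innerSL ℝ η)).hasFDerivAt
    exact h0.const_mul Complex.I
  have h2 := h1.cexp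
  refine h2.congr_fderiv ?_
  rw [smul_smul]

theorem Dk_Tr {ι : Type*} (s : Finset ι) (c : ι → ℂ) (η : ι → EuclideanSpace ℝ (Fin n)) (k : Fin n) :
    Dk k (Tr s c η) = Tr s (fun i => ((η i k : ℝ) : ℂ) * c i) η := by
  funext x
  have h1 : HasFDerivAt (Tr s c η) (∑ i ∈ s, c i •
      ((Complex.exp (Complex.I * ((⟪η i, x⟫_ℝ : ℝ) : ℂ)) * Complex.I) •
        (Complex.ofRealCLM.comp (innerSL ℝ (η i))))) x := by
    unfold Tr
    exact HasFDerivAt.fun_sum fun i _ => (hasFDeriv_exp (η i) x).const_mul (c i)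
  unfold Dk
  rw [h1.fderiv]
  unfold Tr
  rw [ContinuousLinearMap.sum_apply, Finset.mul_sum]
  refine Finset.sum_congr rfl fun i _ => ?_
  simp only [ContinuousLinearMap.smul_apply, ContinuousLinearMap.comp_apply, innerSL_apply_apply,
    Complex.ofRealCLM_apply, smul_eq_mul]
  rw [EuclideanSpace.inner_single_right]
  simp only [conj_trivial, one_mul]
  have : Complex.I * Complex.I = -1 := Complex.I_mul_I
  linear_combination (-c i * Complex.exp (Complex.I * ((⟪η i, x⟫_ℝ : ℝ) : ℂ)) * ((η i k : ℝ) : ℂ)) * this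

theorem Dk_iter_Tr {ι : Type*} (s : Finset ι) (c : ι → ℂ) (η : ι → EuclideanSpace ℝ (Fin n))
    (k : Fin n) (m : ℕ) :
    (Dk k)^[m] (Tr s c η) = Tr s (fun i => ((η i k : ℝ) : ℂ) ^ m * c i) η := by
  induction m with
  | zero => simp
  | succ m ih =>
    rw [Function.iterate_succ_apply', ih, Dk_Tr]
    congr 1
    funext i
    rw [pow_succ]; ring

theorem foldr_Tr {ι : Type*} (s : Finset ι) (c : ι → ℂ) (η : ι → EuclideanSpace ℝ (Fin n))
    (α : Fin n → ℕ) (l : List (Fin n)) :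
    l.foldr (fun k g => (Dk k)^[α k] g) (Tr s c η) =
      Tr s (fun i => (l.map fun k => ((η i k : ℝ) : ℂ) ^ α k).prod * c i) η := by
  induction l with
  | nil => simp
  | cons k l ih =>
    rw [List.foldr_cons, ih, Dk_iter_Tr]
    congr 1
    funext i
    rw [List.map_cons, List.prod_cons]; ring

theorem symD_Tr {ι : Type*} (τ : MvPolynomial (Fin n) ℂ) (s : Finset ι) (c : ι → ℂ)
    (η : ι → EuclideanSpace ℝ (Fin n)) (x : EuclideanSpace ℝ (Fin n)) :
    symD τ (Tr s c η) x = ∑ i ∈ s, c i * val τ (η i) *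
      Complex.exp (Complex.I * ((⟪η i, x⟫_ℝ : ℝ) : ℂ)) := by
  unfold symD Dmono
  simp_rw [foldr_Tr]
  unfold Tr val
  simp_rw [MvPolynomial.eval_eq', Finset.mul_sum, Finset.sum_mul]
  rw [Finset.sum_comm]
  refine Finset.sum_congr rfl fun i _ => Finset.sum_congr rfl fun α _ => ?_
  rw [Fin.prod_univ_def]
  ring

/-- the Fourier transform of the exponential -/
theorem exp_pair (η : EuclideanSpace ℝ (Fin n)) (φ : 𝓢(EuclideanSpace ℝ (Fin n), ℂ)) (hφ : φ η = 0) :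
    Integrable (fun x => Complex.exp (Complex.I * ((⟪η, x⟫_ℝ : ℝ) : ℂ)) *
      ∫ ξ, Complex.exp (-(Complex.I * (⟪x, ξ⟫_ℝ : ℝ))) * φ ξ) ∧
    ∫ x, Complex.exp (Complex.I * ((⟪η, x⟫_ℝ : ℝ) : ℂ)) *
      ∫ ξ, Complex.exp (-(Complex.I * (⟪x, ξ⟫_ℝ : ℝ))) * φ ξ = 0 := by
  have hπ : (0 : ℝ) < 2 * Real.pi := by positivity
  have h1 : ∀ x : EuclideanSpace ℝ (Fin n), (∫ ξ, Complex.exp (-(Complex.I * (⟪x, ξ⟫_ℝ : ℝ))) * φ ξ) =
      (𝓕 φ : 𝓢(EuclideanSpace ℝ (Fin n), ℂ)) ((2 * Real.pi)⁻¹ • x) := by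
    intro x
    rw [SchwartzMap.fourier_coe, Real.fourier_eq']
    refine integral_congr_ae (Eventually.of_forall fun ξ => ?_)
    simp only [smul_eq_mul]
    congr 2
    rw [real_inner_smul_right, real_inner_comm]
    push_cast
    have : (Real.pi : ℂ) ≠ 0 := by exact_mod_cast Real.pi_ne_zero
    field_simp
  set g : EuclideanSpace ℝ (Fin n) → ℂ := fun y =>
    Complex.exp (Complex.I * ((2 * Real.pi * ⟪η, y⟫_ℝ : ℝ) : ℂ)) *
      (𝓕 φ : 𝓢(EuclideanSpace ℝ (Fin n), ℂ)) y with hg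
  have h2 : (fun x => Complex.exp (Complex.I * ((⟪η, x⟫_ℝ : ℝ) : ℂ)) *
      ∫ ξ, Complex.exp (-(Complex.I * (⟪x, ξ⟫_ℝ : ℝ))) * φ ξ) = fun x => g ((2 * Real.pi)⁻¹ • x) := by
    funext x
    rw [h1, hg]
    simp only
    rw [real_inner_smul_right]
    congr 4
    field_simp
  have hgi : Integrable g := by
    refine (𝓕 φ : 𝓢(EuclideanSpace ℝ (Fin n), ℂ)).integrable.bdd_mul (c := 1) ?_
      (Eventually.of_forall fun y => ?_)
    · exact Continuous.aestronglyMeasurable (by fun_prop)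
    · rw [mul_comm, Complex.norm_exp_ofReal_mul_I]
  rw [h2]
  refine ⟨?_, ?_⟩
  · exact hgi.comp_smul (inv_ne_zero hπ.ne')
  · rw [Measure.integral_comp_smul]
    have h3 : ∫ y, g y = φ η := by
      have h4 : (𝓕⁻ (𝓕 φ) : 𝓢(EuclideanSpace ℝ (Fin n), ℂ)) η = φ η := by
        rw [FourierTransform.fourierInv_fourier_eq]
      rw [← h4, SchwartzMap.fourierInv_coe, Real.fourierInv_eq']
      refine integral_congr_ae (Eventually.of_forall fun x => ?_)
      simp only [smul_eq_mul, hg]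
      rw [real_inner_comm, mul_comm Complex.I]
    rw [h3, hφ, smul_zero]

theorem Tr_mem {ι : Type*} (s : Finset ι) (c : ι → ℂ) (η : ι → EuclideanSpace ℝ (Fin n))
    (K : Set (EuclideanSpace ℝ (Fin n))) (hη : ∀ i ∈ s, η i ∈ K) : InBernstein K (Tr s c η) := by
  refine ⟨?_, ⟨∑ i ∈ s, ‖c i‖, fun x => ?_⟩, fun φ hφ => ?_⟩
  · unfold Tr; fun_prop
  · unfold Tr
    refine (norm_sum_le _ _).trans (Finset.sum_le_sum fun i _ => ?_)
    rw [norm_mul, mul_comm Complex.I, Complex.norm_exp_ofReal_mul_I, mul_one]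
  · unfold Tr
    have h0 : ∀ i ∈ s, φ (η i) = 0 := by
      intro i hi
      by_contra hne
      exact (Set.disjoint_left.1 hφ) (subset_tsupport _ hne) (hη i hi)
    simp_rw [Finset.sum_mul, mul_assoc]
    rw [integral_finset_sum]
    · refine Finset.sum_eq_zero fun i hi => ?_
      rw [integral_const_mul, (exp_pair (η i) φ (h0 i hi)).2, mul_zero]
    · intro i hi
      exact (exp_pair (η i) φ (h0 i hi)).1.const_mul (c i)

/-! ### The polynomial on planes -/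

theorem exists_pol (τ : MvPolynomial (Fin n) ℂ) (p u v : EuclideanSpace ℝ (Fin n)) :
    ∃ (M : ℕ) (Q : ℕ → ℕ → ℂ), ∀ s t : ℝ, val τ (p + s • u + t • v) = pol M Q s t := by
  set P : Polynomial (Polynomial ℂ) := MvPolynomial.aeval (fun k : Fin n =>
    (Polynomial.C (Polynomial.C ((p k : ℝ) : ℂ) + Polynomial.C ((u k : ℝ) : ℂ) * Polynomial.X) +
      Polynomial.C (Polynomial.C ((v k : ℝ) : ℂ)) * Polynomial.X : Polynomial (Polynomial ℂ))) τ with hP
  have h1 : ∀ s t : ℝ, val τ (p + s • u + t • v) =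
      Polynomial.eval (s : ℂ) (Polynomial.eval (Polynomial.C (t : ℂ)) P) := by
    intro s t
    have e : ∀ q : Polynomial (Polynomial ℂ), Polynomial.eval (s : ℂ) (Polynomial.eval (Polynomial.C (t : ℂ)) q) =
        ((Polynomial.evalRingHom (s : ℂ)).comp (Polynomial.evalRingHom (Polynomial.C (t : ℂ)))) q := by
      intro q; rfl
    rw [e, hP, MvPolynomial.aeval_def, ← MvPolynomial.coe_eval₂Hom, ← RingHom.comp_apply,
      MvPolynomial.comp_eval₂Hom]
    unfold val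
    rw [MvPolynomial.coe_eval₂Hom, MvPolynomial.eval_eq', MvPolynomial.eval₂_eq']
    refine Finset.sum_congr rfl fun α _ => ?_
    congr 1
    · simp
    · refine Finset.prod_congr rfl fun k _ => ?_
      congr 1
      simp
      ring
  set M : ℕ := P.natDegree + 1 + ∑ b ∈ Finset.range (P.natDegree + 1), ((P.coeff b).natDegree + 1) with hM
  refine ⟨M, fun a b => (P.coeff b).coeff a, fun s t => ?_⟩
  rw [h1, Polynomial.eval_eq_sum_range' (p := P) (n := M) (by omega) (Polynomial.C (t : ℂ)),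
    Polynomial.eval_finsetSum]
  unfold pol
  rw [Finset.sum_comm]
  refine Finset.sum_congr rfl fun b hb => ?_
  rw [Polynomial.eval_mul, Polynomial.eval_pow, Polynomial.eval_C]
  have hdeg : (P.coeff b).natDegree < M := by
    by_cases hb' : b < P.natDegree + 1
    · have h2 : (P.coeff b).natDegree + 1 ≤
          ∑ b ∈ Finset.range (P.natDegree + 1), ((P.coeff b).natDegree + 1) :=
        Finset.single_le_sum (f := fun b => (P.coeff b).natDegree + 1) (fun _ _ => Nat.zero_le _)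
          (Finset.mem_range.2 hb')
      omega
    · have h2 : P.coeff b = 0 := Polynomial.coeff_eq_zero_of_natDegree_lt (by omega)
      rw [h2, Polynomial.natDegree_zero]; omega
  rw [Polynomial.eval_eq_sum_range' hdeg, Finset.sum_mul]
  refine Finset.sum_congr rfl fun a _ => ?_
  ring

theorem pol_ext_t {M : ℕ} {Q : ℕ → ℕ → ℂ} {s : ℝ} {δ : ℝ} (hδ : 0 < δ)
    (h : ∀ t : ℝ, 0 < t → t < δ → pol M Q s t = pol M Q s 0) (t : ℝ) : pol M Q s t = pol M Q s 0 := by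
  set R : Polynomial ℂ := ∑ a ∈ Finset.range M, ∑ b ∈ Finset.range M,
    Polynomial.C (Q a b * (s : ℂ) ^ a) * Polynomial.X ^ b with hR
  have hRe : ∀ t : ℝ, R.eval (t : ℂ) = pol M Q s t := by
    intro t
    rw [hR]
    unfold pol
    simp only [Polynomial.eval_finsetSum, Polynomial.eval_mul, Polynomial.eval_C,
      Polynomial.eval_pow, Polynomial.eval_X]
    refine Finset.sum_congr rfl fun a _ => Finset.sum_congr rfl fun b _ => ?_
    ring
  have hinf : Set.Infinite {x : ℂ | R.eval x = (Polynomial.C (pol M Q s 0)).eval x} := by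
    have h1 : Set.Infinite ((fun t : ℝ => (t : ℂ)) '' Set.Ioo 0 δ) :=
      (Set.Ioo_infinite hδ).image (Complex.ofReal_injective.injOn)
    refine h1.mono ?_
    rintro _ ⟨t, ht, rfl⟩
    change R.eval (t : ℂ) = _
    rw [hRe, Polynomial.eval_C, h t ht.1 ht.2]
  have := Polynomial.eq_of_infinite_eval_eq _ _ hinf
  rw [← hRe t, this, Polynomial.eval_C]

theorem pol_ext_s {M : ℕ} {Q : ℕ → ℕ → ℂ} {δ : ℝ} (hδ : 0 < δ) (t : ℝ)
    (h : ∀ s : ℝ, 0 < s → s < δ → pol M Q s t = pol M Q s 0) (s : ℝ) : pol M Q s t = pol M Q s 0 := by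
  have hRe : ∀ u s : ℝ, (∑ a ∈ Finset.range M, ∑ b ∈ Finset.range M,
      Polynomial.C (Q a b * (u : ℂ) ^ b) * Polynomial.X ^ a : Polynomial ℂ).eval (s : ℂ) = pol M Q s u := by
    intro u s
    unfold pol
    simp only [Polynomial.eval_finsetSum, Polynomial.eval_mul, Polynomial.eval_C,
      Polynomial.eval_pow, Polynomial.eval_X]
    refine Finset.sum_congr rfl fun a _ => Finset.sum_congr rfl fun b _ => ?_
    ring
  have hinf : Set.Infinite {x : ℂ | (∑ a ∈ Finset.range M, ∑ b ∈ Finset.range M,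
      Polynomial.C (Q a b * (t : ℂ) ^ b) * Polynomial.X ^ a : Polynomial ℂ).eval x =
      (∑ a ∈ Finset.range M, ∑ b ∈ Finset.range M,
      Polynomial.C (Q a b * ((0 : ℝ) : ℂ) ^ b) * Polynomial.X ^ a : Polynomial ℂ).eval x} := by
    have h1 : Set.Infinite ((fun t : ℝ => (t : ℂ)) '' Set.Ioo 0 δ) :=
      (Set.Ioo_infinite hδ).image (Complex.ofReal_injective.injOn)
    refine h1.mono ?_
    rintro _ ⟨s, hs, rfl⟩
    change Polynomial.eval (s : ℂ) _ = Polynomial.eval (s : ℂ) _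
    rw [hRe, hRe, h s hs.1 hs.2]
  have := Polynomial.eq_of_infinite_eval_eq _ _ hinf
  rw [← hRe t s, this, hRe]

/-! ### The theorem -/

theorem core (τ : MvPolynomial (Fin n) ℂ)
    (h : ∀ r : ℝ, 0 < r → OpNormEq τ (Metric.closedBall 0 r)
      (sSup ((fun ξ => ‖val τ ξ‖) '' Metric.closedBall 0 r)))
    (ξ₀ : EuclideanSpace ℝ (Fin n)) (h0 : ξ₀ ≠ 0) (hτ : val τ ξ₀ ≠ 0)
    (hmax : ∀ ξ, ‖ξ‖ ≤ ‖ξ₀‖ → ‖val τ ξ‖ ≤ ‖val τ ξ₀‖)
    (ω : EuclideanSpace ℝ (Fin n)) (hω : ‖ω‖ = 1) (hp : ⟪ω, ξ₀⟫_ℝ = 0) (s t : ℝ) :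
    val τ (ξ₀ - s • (‖ξ₀‖⁻¹ • ξ₀) + t • ω) = val τ (ξ₀ - s • (‖ξ₀‖⁻¹ • ξ₀)) := by
  set r := ‖ξ₀‖ with hr
  have hr0 : 0 < r := norm_pos_iff.2 h0
  set ν := r⁻¹ • ξ₀ with hν
  have hξν : ξ₀ = r • ν := by rw [hν, smul_smul, mul_inv_cancel₀ hr0.ne', one_smul]
  have hνn : ‖ν‖ = 1 := by rw [hν, norm_smul, norm_inv, Real.norm_of_nonneg hr0.le, ← hr, inv_mul_cancel₀ hr0.ne']
  have hων : ⟪ω, ν⟫_ℝ = 0 := by rw [hν, real_inner_smul_right, hp, mul_zero]
  have hsup : sSup ((fun ξ => ‖val τ ξ‖) '' Metric.closedBall 0 r) = ‖val τ ξ₀‖ := by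
    apply le_antisymm
    · apply csSup_le
      · exact ⟨_, ξ₀, by simp [hr], rfl⟩
      · rintro _ ⟨ξ, hξ, rfl⟩
        rw [mem_closedBall_zero_iff] at hξ
        exact hmax ξ hξ
    · apply le_csSup
      · refine ⟨‖val τ ξ₀‖, ?_⟩
        rintro _ ⟨ξ, hξ, rfl⟩
        rw [mem_closedBall_zero_iff] at hξ
        exact hmax ξ hξ
      · exact ⟨ξ₀, by simp [hr], rfl⟩
  have hnorm := (h r hr0).1.2
  rw [hsup] at hnorm
  obtain ⟨M, Q, hQ⟩ := exists_pol τ ξ₀ (-ν) ω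
  set S : Set (EuclideanSpace ℝ (Fin n)) := {η | ‖η + ξ₀‖ ≤ r} with hS
  obtain ⟨L, hL1, hL2⟩ := exists_ext S (fun η => val τ (η + ξ₀) / val τ ξ₀) (by
    intro c
    have hf := Tr_mem c.support (fun i => c i) (fun i => (i : EuclideanSpace ℝ (Fin n)) + ξ₀)
      (Metric.closedBall 0 r) (fun i _ => by rw [mem_closedBall_zero_iff]; exact i.2)
    have hb : ∀ x, ‖Tr c.support (fun i => c i) (fun i => (i : EuclideanSpace ℝ (Fin n)) + ξ₀) x‖ ≤
        ‖c.sum fun η a => a • eB (η : EuclideanSpace ℝ (Fin n))‖ := by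
      intro x
      have e1 : Tr c.support (fun i => c i) (fun i => (i : EuclideanSpace ℝ (Fin n)) + ξ₀) x =
          (c.sum fun η a => a • eB (η : EuclideanSpace ℝ (Fin n))) x * eB ξ₀ x := by
        unfold Tr
        rw [Finsupp.sum, BoundedContinuousFunction.coe_sum, Finset.sum_apply, Finset.sum_mul]
        refine Finset.sum_congr rfl fun i _ => ?_
        rw [BoundedContinuousFunction.smul_apply, smul_eq_mul, mul_assoc,
          ← BoundedContinuousFunction.mul_apply, eB_mul, eB_apply]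
      rw [e1, norm_mul, eB_norm, mul_one]
      exact BoundedContinuousFunction.norm_coe_le_norm _ x
    have h1 := hnorm _ hf _ hb 0
    rw [symD_Tr] at h1
    simp only [inner_zero_right, Complex.ofReal_zero, mul_zero, Complex.exp_zero, mul_one] at h1
    have h2 : (c.sum fun η a => a * (val τ ((η : EuclideanSpace ℝ (Fin n)) + ξ₀) / val τ ξ₀)) =
        (∑ i ∈ c.support, c i * val τ ((i : EuclideanSpace ℝ (Fin n)) + ξ₀)) / val τ ξ₀ := by
      rw [Finsupp.sum, Finset.sum_div]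
      refine Finset.sum_congr rfl fun i _ => ?_
      rw [mul_div_assoc]
    rw [h2, norm_div, div_le_iff₀ (norm_pos_iff.2 hτ), mul_comm (‖_‖) ‖val τ ξ₀‖]
    exact h1)
  have hsit : Sit L ν ω r M (fun a b => Q a b / val τ ξ₀) := by
    have hpol : ∀ s t : ℝ, pol M (fun a b => Q a b / val τ ξ₀) s t = val τ (ξ₀ + s • -ν + t • ω) / val τ ξ₀ := by
      intro s t
      rw [hQ]
      unfold pol
      rw [Finset.sum_div]
      refine Finset.sum_congr rfl fun a _ => ?_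
      rw [Finset.sum_div]
      refine Finset.sum_congr rfl fun b _ => ?_
      ring
    refine ⟨⟨hL1, ?_⟩, hr0, ?_, ?_⟩
    · have h1 := hL2 0 (by simp [hS, hr])
      rw [eB_zero, zero_add, div_self hτ] at h1
      exact h1
    · intro s t hs hst
      rw [hpol]
      have hmem : t • ω - s • ν ∈ S := by
        rw [hS, Set.mem_setOf_eq, ← sq_le_sq₀ (norm_nonneg _) hr0.le]
        have e : t • ω - s • ν + ξ₀ = t • ω + (r - s) • ν := by
          conv_lhs => rw [hξν]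
          rw [sub_smul]; abel
        rw [e, norm_add_sq_real, norm_smul, norm_smul, hω, hνn, real_inner_smul_left,
          real_inner_smul_right, hων, mul_one, mul_one, Real.norm_eq_abs, Real.norm_eq_abs, sq_abs,
          sq_abs]
        nlinarith
      rw [hL2 _ hmem]
      congr 2
      rw [smul_neg]; abel
    · rw [hpol, zero_smul, zero_smul, add_zero, add_zero, div_self hτ]
  -- constancy
  have hc : ∀ s t : ℝ, pol M Q s t = pol M Q s 0 := by
    have hdiv : ∀ s t : ℝ, pol M (fun a b => Q a b / val τ ξ₀) s t = pol M Q s t / val τ ξ₀ := by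
      intro s t
      unfold pol
      rw [Finset.sum_div]
      refine Finset.sum_congr rfl fun a _ => ?_
      rw [Finset.sum_div]
      refine Finset.sum_congr rfl fun b _ => ?_
      ring
    have h1 : ∀ s : ℝ, 0 < s → s < r → ∀ t, pol M Q s t = pol M Q s 0 := by
      intro s hs hsr
      have hδ : 0 < Real.sqrt (r * s) := Real.sqrt_pos.2 (by positivity)
      refine pol_ext_t hδ fun t ht htδ => ?_
      have h2 : t ^ 2 ≤ r * s := by
        have := pow_le_pow_left₀ ht.le htδ.le 2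
        rwa [Real.sq_sqrt (by positivity)] at this
      have h3 := hsit.const hs.le ht (by nlinarith)
      rw [hdiv, hdiv] at h3
      exact (div_left_inj' hτ).1 h3
    intro s t
    exact pol_ext_s hr0 t (fun s hs hsr => h1 s hs hsr t) s
  have h1 := hQ s t
  have h2 := hQ s 0
  rw [hc s t, ← h2] at h1
  rw [zero_smul, add_zero, smul_neg, ← sub_eq_add_neg] at h1
  exact h1

theorem val_line (τ : MvPolynomial (Fin n) ℂ) (ν : EuclideanSpace ℝ (Fin n)) :
    ∃ ρ : Polynomial ℂ, ∀ x : ℝ, val τ (x • ν) = ρ.eval (x : ℂ) := by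
  obtain ⟨M, Q, hQ⟩ := exists_pol τ 0 ν 0
  refine ⟨∑ a ∈ Finset.range M, ∑ b ∈ Finset.range M,
    Polynomial.C (Q a b * (0 : ℂ) ^ b) * Polynomial.X ^ a, fun x => ?_⟩
  have h1 := hQ x 0
  rw [zero_add, zero_smul, add_zero] at h1
  rw [h1]
  unfold pol
  simp only [Polynomial.eval_finsetSum, Polynomial.eval_mul, Polynomial.eval_C,
    Polynomial.eval_pow, Polynomial.eval_X]
  refine Finset.sum_congr rfl fun a _ => Finset.sum_congr rfl fun b _ => ?_
  push_cast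
  ring

theorem val_continuous (τ : MvPolynomial (Fin n) ℂ) : Continuous (val τ) := by
  unfold val
  exact (MvPolynomial.continuous_eval τ).comp (by fun_prop)

/-- **Theorem.** Let `τ` be a polynomial on `ℝⁿ` for which the norm of `τ(D)` on `B(K)` is
`max_K |τ|`, for every closed ball `K` with centre `0`. Then `τ` is a ridge polynomial. -/
theorem result (n : ℕ) (τ : MvPolynomial (Fin n) ℂ)
    (h : ∀ r : ℝ, 0 < r → OpNormEq τ (Metric.closedBall 0 r)
      (sSup ((fun ξ => ‖val τ ξ‖) '' Metric.closedBall 0 r))) : IsRidge τ := by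
  by_cases hb : ∀ ξ, ‖val τ ξ‖ ≤ ‖val τ 0‖
  · -- bounded: constant
    refine ⟨0, Polynomial.C (val τ 0), fun ξ => ?_⟩
    rw [Polynomial.eval_C]
    obtain ⟨ρ, hρ⟩ := val_line τ ξ
    have hdeg : ρ.degree ≤ 0 := by
      by_contra hcon
      push Not at hcon
      have h1 := ρ.tendsto_norm_atTop hcon (l := atTop) (z := fun x : ℝ => (x : ℂ)) (by
        simp only [Complex.norm_real]
        exact tendsto_norm_atTop_atTop)
      obtain ⟨x, hx⟩ := (h1.eventually_gt_atTop ‖val τ 0‖).exists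
      rw [← hρ] at hx
      exact absurd (hb (x • ξ)) (not_le.mpr hx)
    have h2 := Polynomial.eq_C_of_degree_le_zero hdeg
    have h3 := hρ 1
    have h4 := hρ 0
    rw [h2, Polynomial.eval_C] at h3 h4
    rw [one_smul] at h3
    rw [zero_smul] at h4
    rw [h3, h4]
  · push Not at hb
    obtain ⟨ξ₁, hξ₁⟩ := hb
    obtain ⟨ξ₀, hξ₀, hmax⟩ := (isCompact_closedBall (0 : EuclideanSpace ℝ (Fin n)) ‖ξ₁‖).exists_isMaxOn
      ⟨0, by simp⟩ (val_continuous τ).norm.continuousOn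
    rw [mem_closedBall_zero_iff] at hξ₀
    have hmax' : ∀ ξ, ‖ξ‖ ≤ ‖ξ₁‖ → ‖val τ ξ‖ ≤ ‖val τ ξ₀‖ := fun ξ hξ =>
      hmax (by rwa [mem_closedBall_zero_iff])
    have h1 : ‖val τ 0‖ < ‖val τ ξ₀‖ := lt_of_lt_of_le hξ₁ (hmax' ξ₁ le_rfl)
    have hτ : val τ ξ₀ ≠ 0 := norm_pos_iff.1 (lt_of_le_of_lt (norm_nonneg _) h1)
    have h0 : ξ₀ ≠ 0 := by rintro rfl; exact lt_irrefl _ h1
    have hmax'' : ∀ ξ, ‖ξ‖ ≤ ‖ξ₀‖ → ‖val τ ξ‖ ≤ ‖val τ ξ₀‖ := fun ξ hξ => hmax' ξ (hξ.trans hξ₀)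
    set r := ‖ξ₀‖ with hr
    have hr0 : 0 < r := norm_pos_iff.2 h0
    set ν := r⁻¹ • ξ₀ with hν
    have hξν : ξ₀ = r • ν := by rw [hν, smul_smul, mul_inv_cancel₀ hr0.ne', one_smul]
    have hνn : ‖ν‖ = 1 := by rw [hν, norm_smul, norm_inv, Real.norm_of_nonneg hr0.le, ← hr, inv_mul_cancel₀ hr0.ne']
    obtain ⟨ρ, hρ⟩ := val_line τ ν
    refine ⟨ν, ρ, fun ξ => ?_⟩
    rw [← hρ]
    set x := ⟪ν, ξ⟫_ℝ with hx
    set ζ := ξ - x • ν with hζ
    have hζν : ⟪ζ, ν⟫_ℝ = 0 := by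
      rw [hζ, inner_sub_left, real_inner_smul_left, real_inner_self_eq_norm_sq, hνn, real_inner_comm,
        ← hx]
      ring
    by_cases hz : ζ = 0
    · rw [hζ, sub_eq_zero] at hz
      rw [← hz]
    · have hz0 : 0 < ‖ζ‖ := norm_pos_iff.2 hz
      have h2 := core τ h ξ₀ h0 hτ hmax'' (‖ζ‖⁻¹ • ζ)
        (by rw [norm_smul, norm_inv, norm_norm, inv_mul_cancel₀ hz0.ne'])
        (by rw [hξν, real_inner_smul_left, real_inner_smul_right, hζν]; ring) (r - x) ‖ζ‖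
      rw [← hr, ← hν, smul_smul ‖ζ‖, mul_inv_cancel₀ hz0.ne', one_smul] at h2
      have e1 : ξ₀ - (r - x) • ν = x • ν := by
        conv_lhs => rw [hξν]
        rw [sub_smul]; abel
      rw [e1] at h2
      rw [← h2, hζ]
      congr 1
      abel

end Pool.Agent.Results.MP_c23f48_an.RidgeSymbols
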